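import Mathlib

/-!
# The algebraic critical exponent depends on the representation

`U_{3,6}` over `GF(7)`: the exponent for `2`-flats is `1` for six points of a conic and `2` for a complete arc of six points.
-/

set_option autoImplicit false

namespace Pool.Agent.Results.MP_bc6ab1_co.ConicAndArc

open Module

/-- `φ` represents the matroid `M`: the dimension of the span of `φ(A)` is the rank of `A`, for every set `A` of elements. -/
def IsRep {F : Type} [Field F] {n d : ℕ} (M : Matroid (Fin n)) (φ : Fin n → (Fin d → F)) : Prop :=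
  ∀ A : Set (Fin n), ((finrank F (Submodule.span F (φ '' A)) : ℕ) : ℕ∞) = M.eRk A

/-- The linear functionals `L 0, ..., L (c - 1)` on the exterior algebra of `F^d` distinguish the `k`-flats of `M` in `φ`: for every `k`-flat `X` there are an index `i`
and an ordered basis `x 0, ..., x (k - 1)` of `X` with `L i (φ (x 0) ∧ ... ∧ φ (x (k - 1))) ≠ 0`. Only the restrictions of the functionals to the `k`-th exterior power matter,
and every linear functional of the `k`-th exterior power is such a restriction. -/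
def Distinguish {F : Type} [Field F] {n d c : ℕ} (M : Matroid (Fin n)) (φ : Fin n → (Fin d → F)) (k : ℕ)
    (L : Fin c → (ExteriorAlgebra F (Fin d → F) →ₗ[F] F)) : Prop :=
  ∀ X : Set (Fin n), M.IsFlat X → M.eRk X = (k : ℕ∞) →
    ∃ (i : Fin c) (x : Fin k → Fin n), Function.Injective x ∧ M.IsBasis (Set.range x) X ∧
      L i (ExteriorAlgebra.ιMulti F k (fun j => φ (x j))) ≠ 0

/-- The numbers `c` for which some `c` linear functionals distinguish the `k`-flats of `M` in `φ`; the algebraic critical exponent is the least element. -/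
def Sizes {F : Type} [Field F] {n d : ℕ} (M : Matroid (Fin n)) (φ : Fin n → (Fin d → F)) (k : ℕ) : Set ℕ :=
  {c : ℕ | ∃ L : Fin c → (ExteriorAlgebra F (Fin d → F) →ₗ[F] F), Distinguish M φ k L}

instance fact7 : Fact (Nat.Prime 7) := ⟨by norm_num⟩

/-- The uniform matroid of rank 3 on six elements. -/
def U36 : Matroid (Fin 6) :=
  (IndepMatroid.ofFinite (E := Set.univ) Set.finite_univ (fun I : Set (Fin 6) => I.ncard ≤ 3)
    (by simp)
    (by
      intro I J hJ hIJ
      exact (Set.ncard_le_ncard hIJ (Set.toFinite J)).trans hJ)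
    (by
      intro I J hI hJ hlt
      obtain ⟨e, heJ, heI⟩ := Set.exists_mem_notMem_of_ncard_lt_ncard hlt
      refine ⟨e, heJ, heI, ?_⟩
      have := Set.ncard_insert_le e I
      omega)
    (by intro I _; exact Set.subset_univ I)).matroid

theorem U36_indep (I : Set (Fin 6)) : U36.Indep I ↔ I.ncard ≤ 3 := by
  simp [U36]

theorem U36_E : U36.E = Set.univ := rfl

theorem indep_iff (φ : Fin 6 → (Fin 3 → ZMod 7))
    (hφ : ∀ i j k : Fin 6, i ≠ j → i ≠ k → j ≠ k →
      (Matrix.of ![φ i, φ j, φ k]).det ≠ 0) (I : Set (Fin 6)) :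
    U36.Indep I ↔ LinearIndepOn (ZMod 7) φ I := by
  rw [U36_indep]
  constructor
  · intro hI
    obtain ⟨J, hIJ, -, hJ⟩ := Set.exists_subsuperset_card_eq (s := I) (t := Set.univ)
      (Set.subset_univ I) hI (by simp [Set.ncard_univ])
    obtain ⟨i, j, k, hij, hik, hjk, rfl⟩ := Set.ncard_eq_three.mp hJ
    refine LinearIndepOn.mono ?_ hIJ
    have hinj : Function.Injective ![i, j, k] := by
      intro a b hab
      fin_cases a <;> fin_cases b <;> simp_all
    have hr : ({i, j, k} : Set (Fin 6)) = Set.range ![i, j, k] := by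
      ext x
      simp only [Set.mem_insert_iff, Set.mem_singleton_iff, Set.mem_range, Fin.exists_fin_succ,
        Fin.exists_fin_zero]
      simp [eq_comm]
    rw [hr, linearIndepOn_range_iff hinj]
    have h1 := Matrix.linearIndependent_rows_of_det_ne_zero (hφ i j k hij hik hjk)
    have e : (fun a => Matrix.of ![φ i, φ j, φ k] a) = φ ∘ ![i, j, k] := by
      funext a
      fin_cases a <;> rfl
    have h2 : LinearIndependent (ZMod 7) (fun a => Matrix.of ![φ i, φ j, φ k] a) := h1
    rw [e] at h2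
    exact h2
  · intro h
    classical
    have h1 := h.linearIndependent
    have h2 := LinearIndependent.fintype_card_le_finrank h1
    rw [Module.finrank_fin_fun] at h2
    rw [← Nat.card_coe_set_eq, Nat.card_eq_fintype_card]
    exact h2

/-- determinant of three vectors, as an alternating form in the last two arguments -/
theorem expand (L : (Fin 3 → ZMod 7) [⋀^Fin 2]→ₗ[ZMod 7] ZMod 7) (x y : Fin 3 → ZMod 7) :
    L ![x, y] = ∑ i, ∑ j, x i * (y j * L ![Pi.single i 1, Pi.single j 1]) := by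
  have h1 : ∀ y : Fin 3 → ZMod 7, L ![x, y] = ∑ i, x i * L ![Pi.single i 1, y] := by
    intro y
    have hx : x = ∑ i, x i • (Pi.single i (1 : ZMod 7) : Fin 3 → ZMod 7) := pi_eq_sum_univ' x
    have key : ∀ z : Fin 3 → ZMod 7, L ![z, y] = (L.toMultilinearMap.toLinearMap ![0, y] 0) z := by
      intro z
      simp only [MultilinearMap.toLinearMap_apply]
      have : Function.update (![0, y] : Fin 2 → Fin 3 → ZMod 7) 0 z = ![z, y] := by
        funext a
        fin_cases a <;> simp
      rw [this]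
      rfl
    rw [key x]
    conv_lhs => rw [hx]
    rw [map_sum]
    refine Finset.sum_congr rfl fun i _ => ?_
    rw [map_smul, key, smul_eq_mul]
  have h2 : ∀ x : Fin 3 → ZMod 7, L ![x, y] = ∑ j, y j * L ![x, Pi.single j 1] := by
    intro x
    have hy : y = ∑ i, y i • (Pi.single i (1 : ZMod 7) : Fin 3 → ZMod 7) := pi_eq_sum_univ' y
    have key : ∀ z : Fin 3 → ZMod 7, L ![x, z] = (L.toMultilinearMap.toLinearMap ![x, 0] 1) z := by
      intro z
      simp only [MultilinearMap.toLinearMap_apply]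
      have : Function.update (![x, 0] : Fin 2 → Fin 3 → ZMod 7) 1 z = ![x, z] := by
        funext a
        fin_cases a <;> simp
      rw [this]
      rfl
    rw [key y]
    conv_lhs => rw [hy]
    rw [map_sum]
    refine Finset.sum_congr rfl fun i _ => ?_
    rw [map_smul, key, smul_eq_mul]
  rw [h1]
  refine Finset.sum_congr rfl fun i _ => ?_
  rw [h2, Finset.mul_sum]

theorem swap_eq (L : (Fin 3 → ZMod 7) [⋀^Fin 2]→ₗ[ZMod 7] ZMod 7) (x y : Fin 3 → ZMod 7) :
    L ![y, x] = - L ![x, y] := by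
  have h := L.map_swap ![x, y] (i := 0) (j := 1) (by decide)
  rw [← h]
  congr 1
  funext a
  fin_cases a <;> simp

theorem expand' (L : (Fin 3 → ZMod 7) [⋀^Fin 2]→ₗ[ZMod 7] ZMod 7) :
    ∃ a b c : ZMod 7, ∀ x y : Fin 3 → ZMod 7,
      L ![x, y] = a * (x 0 * y 1 - x 1 * y 0) + b * (x 0 * y 2 - x 2 * y 0)
        + c * (x 1 * y 2 - x 2 * y 1) := by
  refine ⟨L ![Pi.single 0 1, Pi.single 1 1], L ![Pi.single 0 1, Pi.single 2 1],
    L ![Pi.single 1 1, Pi.single 2 1], fun x y => ?_⟩
  have h0 : ∀ z : Fin 3 → ZMod 7, L ![z, z] = 0 := by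
    intro z
    exact L.map_eq_zero_of_eq ![z, z] (i := 0) (j := 1) (by simp) (by decide)
  rw [expand]
  simp only [Fin.sum_univ_three, h0]
  rw [swap_eq L (Pi.single 0 1) (Pi.single 1 1), swap_eq L (Pi.single 0 1) (Pi.single 2 1),
    swap_eq L (Pi.single 1 1) (Pi.single 2 1)]
  ring

/-- Points of a conic. -/
def φ₁ : Fin 6 → (Fin 3 → ZMod 7) :=
  ![![1, 0, 0], ![1, 1, 1], ![1, 2, 4], ![1, 3, 2], ![1, 4, 2], ![1, 5, 4]]

/-- A complete arc. -/
def φ₂ : Fin 6 → (Fin 3 → ZMod 7) :=
  ![![1, 0, 0], ![0, 1, 0], ![0, 0, 1], ![1, 1, 1], ![1, 2, 3], ![1, 3, 4]]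

theorem h₁ : ∀ i j k : Fin 6, i ≠ j → i ≠ k → j ≠ k →
      (Matrix.of ![φ₁ i, φ₁ j, φ₁ k]).det ≠ 0 := by
  simp only [Matrix.det_fin_three]
  decide +kernel

theorem h₂ : ∀ i j k : Fin 6, i ≠ j → i ≠ k → j ≠ k →
      (Matrix.of ![φ₂ i, φ₂ j, φ₂ k]).det ≠ 0 := by
  simp only [Matrix.det_fin_three]
  decide +kernel

theorem cover : ∀ a b c : ZMod 7, ∃ i j : Fin 6, i ≠ j ∧
    a * (φ₂ i 0 * φ₂ j 1 - φ₂ i 1 * φ₂ j 0) + b * (φ₂ i 0 * φ₂ j 2 - φ₂ i 2 * φ₂ j 0)
        + c * (φ₂ i 1 * φ₂ j 2 - φ₂ i 2 * φ₂ j 1) = 0 := by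
  decide +kernel

theorem avoid : ∀ i j : Fin 6, i ≠ j →
    (Matrix.of ![![0, 0, 1], φ₁ i, φ₁ j]).det ≠ 0 := by
  simp only [Matrix.det_fin_three]
  decide +kernel

theorem pair_inj {a b : Fin 6} (hab : a ≠ b) : Function.Injective ![a, b] := by
  intro x y hxy
  fin_cases x <;> fin_cases y <;> simp_all

theorem pair_range (a b : Fin 6) : Set.range ![a, b] = ({a, b} : Set (Fin 6)) := by
  ext x
  simp only [Set.mem_range, Fin.exists_fin_two, Set.mem_insert_iff, Set.mem_singleton_iff]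
  simp only [Matrix.cons_val_zero, Matrix.cons_val_one, eq_comm (a := x)]

theorem comp_pair (φ : Fin 6 → (Fin 3 → ZMod 7)) (a b : Fin 6) :
    φ ∘ ![a, b] = ![φ a, φ b] := by
  funext x
  fin_cases x <;> rfl

theorem pair_eq {a b : Fin 6} (e : Fin 2 → Fin 6) (he : Function.Injective e)
    (hr : Set.range e ⊆ {a, b}) : e = ![a, b] ∨ e = ![b, a] := by
  have h0 : e 0 ∈ ({a, b} : Set (Fin 6)) := hr ⟨0, rfl⟩
  have h1 : e 1 ∈ ({a, b} : Set (Fin 6)) := hr ⟨1, rfl⟩
  have h01 : e 0 ≠ e 1 := fun h => by simpa using he h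
  simp only [Set.mem_insert_iff, Set.mem_singleton_iff] at h0 h1
  rcases h0 with h0 | h0 <;> rcases h1 with h1 | h1
  · exact absurd (h0.trans h1.symm) h01
  · left; funext x; fin_cases x <;> simp [h0, h1]
  · right; funext x; fin_cases x <;> simp [h0, h1]
  · exact absurd (h0.trans h1.symm) h01

theorem isFlat_pair {a b : Fin 6} (hab : a ≠ b) : U36.IsFlat ({a, b} : Set (Fin 6)) := by
  rw [Matroid.isFlat_iff_closure_eq]
  apply Set.Subset.antisymm
  · intro x hx
    by_contra hxn
    have hI : U36.Indep ({a, b} : Set (Fin 6)) := by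
      rw [U36_indep, Set.ncard_pair hab]
      norm_num
    have hd := (hI.mem_closure_iff_of_notMem hxn).mp hx
    rw [Matroid.Dep, U36_indep] at hd
    have hc : (insert x ({a, b} : Set (Fin 6))).ncard ≤ 3 := by
      refine (Set.ncard_insert_le _ _).trans ?_
      rw [Set.ncard_pair hab]
    exact hd.1 hc
  · exact U36.subset_closure _ (by rw [U36_E]; exact Set.subset_univ _)

theorem eRk_pair {a b : Fin 6} (hab : a ≠ b) :
    U36.eRk ({a, b} : Set (Fin 6)) = ((2 : ℕ) : ℕ∞) := by
  have hI : U36.Indep ({a, b} : Set (Fin 6)) := by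
    rw [U36_indep, Set.ncard_pair hab]
    norm_num
  rw [hI.eRk_eq_encard, Set.encard_pair hab]
  rfl

/-- a representation in the sense of independent sets is one in the sense of ranks -/
theorem isRep_of {F : Type} [Field F] {n d : ℕ} {M : Matroid (Fin n)} (hE : M.E = Set.univ)
    {φ : Fin n → (Fin d → F)} (h : ∀ I : Set (Fin n), M.Indep I ↔ LinearIndepOn F φ I) : IsRep M φ := by
  intro A
  obtain ⟨I, hI⟩ := M.exists_isBasis A (by rw [hE]; exact Set.subset_univ _)
  have hlin := (h I).1 hI.indep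
  have hspan : Submodule.span F (φ '' A) = Submodule.span F (φ '' I) := by
    apply le_antisymm
    · rw [Submodule.span_le]
      rintro _ ⟨a, ha, rfl⟩
      by_contra hn
      have haI : a ∉ I := fun hh => hn (Submodule.subset_span ⟨a, hh, rfl⟩)
      have h1 : LinearIndepOn F φ (insert a I) := (linearIndepOn_insert haI).2 ⟨hlin, hn⟩
      have h2 : M.Indep (insert a I) := (h _).2 h1
      have h3 := hI.eq_of_subset_indep h2 (Set.subset_insert a I) (Set.insert_subset ha hI.subset)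
      exact haI (h3 ▸ Set.mem_insert a I)
    · exact Submodule.span_mono (Set.image_mono hI.subset)
  rw [hspan, ← hI.encard_eq_eRk]
  have h4 : finrank F (Submodule.span F (φ '' I)) = I.ncard := by
    classical
    have h5 := finrank_span_eq_card (R := F) (b := fun i : I => φ i) hlin
    rw [← Nat.card_coe_set_eq, Nat.card_eq_fintype_card, ← h5, Set.image_eq_range]
  rw [h4]
  exact (Set.toFinite I).cast_ncard_eq

/-- the functional of the exterior power which belongs to `det (p, x, y)` -/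
noncomputable def functional (p : Fin 3 → ZMod 7) : ⋀[ZMod 7]^2 (Fin 3 → ZMod 7) →ₗ[ZMod 7] ZMod 7 :=
  exteriorPower.alternatingMapLinearEquiv
    ((Matrix.detRowAlternating (R := ZMod 7) (n := Fin 3)).curryLeft p)

theorem exists_functional (p : Fin 3 → ZMod 7) :
    ∃ L : ExteriorAlgebra (ZMod 7) (Fin 3 → ZMod 7) →ₗ[ZMod 7] ZMod 7, ∀ x y : Fin 3 → ZMod 7,
      L (ExteriorAlgebra.ιMulti (ZMod 7) 2 ![x, y]) = (Matrix.of ![p, x, y]).det := by
  obtain ⟨L, hL⟩ := LinearMap.exists_extend (functional p)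
  refine ⟨L, fun x y => ?_⟩
  have h1 : L (ExteriorAlgebra.ιMulti (ZMod 7) 2 ![x, y]) =
      functional p (exteriorPower.ιMulti (ZMod 7) 2 ![x, y]) := by
    rw [← hL]
    rfl
  rw [h1]
  unfold functional
  rw [exteriorPower.alternatingMapLinearEquiv_apply_ιMulti, AlternatingMap.curryLeft_apply_apply]
  rfl

theorem two_functionals : ∀ i j : Fin 6, i ≠ j →
    (Matrix.of ![![0, 0, 1], φ₂ i, φ₂ j]).det ≠ 0 ∨ (Matrix.of ![![1, 4, 0], φ₂ i, φ₂ j]).det ≠ 0 := by
  simp only [Matrix.det_fin_three]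
  decide +kernel

theorem basis_pair {X : Set (Fin 6)} (hr : U36.eRk X = ((2 : ℕ) : ℕ∞)) :
    ∃ a b : Fin 6, a ≠ b ∧ U36.IsBasis (Set.range ![a, b]) X := by
  obtain ⟨I, hI⟩ := U36.exists_isBasis X (by rw [U36_E]; exact Set.subset_univ _)
  have hc : I.encard = 2 := by
    rw [hI.encard_eq_eRk, hr]
    rfl
  obtain ⟨a, b, hab, rfl⟩ := Set.encard_eq_two.mp hc
  exact ⟨a, b, hab, by rw [pair_range]; exact hI⟩

theorem fun_pair (φ : Fin 6 → (Fin 3 → ZMod 7)) (a b : Fin 6) :
    (fun j : Fin 2 => φ (![a, b] j)) = ![φ a, φ b] := comp_pair φ a b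

/-- There is a loopless matroid `M` of rank `3` on six elements (the uniform matroid `U_{3,6}`) with two representations over `GF(7)` whose algebraic critical exponents for `2`-flats are `1` and `2`. -/
theorem result : ∃ (M : Matroid (Fin 6)) (φ₁ φ₂ : Fin 6 → (Fin 3 → ZMod 7)),
    M.E = Set.univ ∧ M.Loopless ∧ (∀ I : Set (Fin 6), M.Indep I ↔ I.ncard ≤ 3) ∧
    IsRep M φ₁ ∧ IsRep M φ₂ ∧
    IsLeast (Sizes M φ₁ 2) 1 ∧ IsLeast (Sizes M φ₂ 2) 2 := by
  have hloop : U36.Loopless := by
    rw [Matroid.loopless_iff_forall_isNonloop]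
    intro e _
    rw [← Matroid.indep_singleton, U36_indep]
    simp
  have h01 : (0 : Fin 6) ≠ 1 := by decide
  obtain ⟨A, hA⟩ := exists_functional ![0, 0, 1]
  obtain ⟨B, hB⟩ := exists_functional ![1, 4, 0]
  refine ⟨U36, φ₁, φ₂, U36_E, hloop, U36_indep, isRep_of U36_E (indep_iff φ₁ h₁),
    isRep_of U36_E (indep_iff φ₂ h₂), ⟨?_, ?_⟩, ⟨?_, ?_⟩⟩
  · refine ⟨fun _ => A, fun X _ hr => ?_⟩
    obtain ⟨a, b, hab, hI⟩ := basis_pair hr
    refine ⟨0, ![a, b], pair_inj hab, hI, ?_⟩
    rw [fun_pair, hA]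
    exact avoid a b hab
  · rintro c ⟨L, hL⟩
    obtain ⟨i, -⟩ := hL {0, 1} (isFlat_pair h01) (eRk_pair h01)
    exact Nat.one_le_iff_ne_zero.2 (fun hc => by subst hc; exact i.elim0)
  · refine ⟨![A, B], fun X _ hr => ?_⟩
    obtain ⟨a, b, hab, hI⟩ := basis_pair hr
    rcases two_functionals a b hab with h | h
    · refine ⟨0, ![a, b], pair_inj hab, hI, ?_⟩
      rw [fun_pair, Matrix.cons_val_zero, hA]
      exact h
    · refine ⟨1, ![a, b], pair_inj hab, hI, ?_⟩
      rw [fun_pair, Matrix.cons_val_one, Matrix.cons_val_zero, hB]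
      exact h
  · rintro c ⟨L, hL⟩
    by_contra hlt
    have hc : c = 0 ∨ c = 1 := by omega
    rcases hc with rfl | rfl
    · obtain ⟨i, -⟩ := hL {0, 1} (isFlat_pair h01) (eRk_pair h01)
      exact i.elim0
    · obtain ⟨p, q, r, hpqr⟩ := expand' ((L 0).compAlternatingMap (ExteriorAlgebra.ιMulti (ZMod 7) 2))
      obtain ⟨i, j, hij, h0⟩ := cover p q r
      obtain ⟨t, e, he, hb, hne⟩ := hL {i, j} (isFlat_pair hij) (eRk_pair hij)
      have ht : t = 0 := Subsingleton.elim _ _
      subst ht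
      apply hne
      have hz : (L 0).compAlternatingMap (ExteriorAlgebra.ιMulti (ZMod 7) 2) ![φ₂ i, φ₂ j] = 0 := by
        rw [hpqr]; exact h0
      have hz' : (L 0).compAlternatingMap (ExteriorAlgebra.ιMulti (ZMod 7) 2) ![φ₂ j, φ₂ i] = 0 := by
        rw [swap_eq, hz, neg_zero]
      rcases pair_eq e he hb.subset with rfl | rfl
      · rw [fun_pair]
        exact hz
      · rw [fun_pair]
        exact hz'

end Pool.Agent.Results.MP_bc6ab1_co.ConicAndArc
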